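import Pool.Agent.helper48.PR.SpecL
import Pool.Agent.helper48.SLn.Index

set_option autoImplicit false

namespace Pool.Agent.PR

open Matrix Pool.Agent.H48SL

set_option linter.unusedSectionVars false

section

variable {ι : Type} [Fintype ι] [DecidableEq ι]

/-- reduction modulo `q` -/
def LSA_M (q : ℕ) (a : Matrix ι ι ℤ) : Matrix ι ι (ZMod q) := a.map (Int.castRingHom (ZMod q))

theorem LSA_M_mul (q : ℕ) (a b : Matrix ι ι ℤ) : LSA_M q (a * b) = LSA_M q a * LSA_M q b := by
  unfold LSA_M
  rw [Matrix.map_mul]

theorem LSA_M_one (q : ℕ) : LSA_M q (1 : Matrix ι ι ℤ) = 1 := by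
  unfold LSA_M
  rw [Matrix.map_one _ (map_zero _) (map_one _)]

theorem LSA_M_det (q : ℕ) (a : Matrix ι ι ℤ) :
    (LSA_M q a).det = Int.castRingHom (ZMod q) a.det := by
  unfold LSA_M
  rw [← RingHom.mapMatrix_apply, RingHom.map_det]

theorem LSA_M_mulVec (q : ℕ) (a : Matrix ι ι ℤ) (v : ι → ℤ) :
    LSA_M q a *ᵥ (fun i => ((v i : ℤ) : ZMod q)) = fun i => (((a *ᵥ v) i : ℤ) : ZMod q) := by
  ext i
  exact (RingHom.map_mulVec (Int.castRingHom (ZMod q)) a v i).symm

theorem LSA_M_vecMul (q : ℕ) (a : Matrix ι ι ℤ) (v : ι → ℤ) :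
    (fun i => ((v i : ℤ) : ZMod q)) ᵥ* LSA_M q a = fun i => (((v ᵥ* a) i : ℤ) : ZMod q) := by
  ext i
  exact (RingHom.map_vecMul (Int.castRingHom (ZMod q)) a v i).symm

theorem LSA_single (q : ℕ) (j : ι) :
    (fun i => (((Pi.single j 1 : ι → ℤ) i : ℤ) : ZMod q)) = Pi.single j 1 := by
  ext i
  by_cases h : i = j
  · subst h; simp
  · simp [h]

theorem LSA_ES_row {S : Finset ι} {a : SpecialLinearGroup ι ℤ} (ha : a ∈ ES S) {j : ι}
    (hj : j ∉ S) : (Pi.single j 1 : ι → ℤ) ᵥ* (a : Matrix ι ι ℤ) = Pi.single j 1 := by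
  induction ha using Subgroup.closure_induction with
  | mem g hg =>
    obtain ⟨i, hi, k, hk, hik, c, rfl⟩ := hg
    unfold xe
    rw [tv_vecMul (single_dot hik c)]
    have : i ≠ j := fun h => hj (h ▸ hi)
    simp [this]
  | one => rw [Matrix.SpecialLinearGroup.coe_one, vecMul_one]
  | mul a b _ _ iha ihb =>
    rw [Matrix.SpecialLinearGroup.coe_mul, ← vecMul_vecMul, iha, ihb]
  | inv a _ iha =>
    have h := congrArg (fun w => w ᵥ* ((a⁻¹ : SpecialLinearGroup ι ℤ) : Matrix ι ι ℤ)) iha
    simp only at h
    rw [vecMul_vecMul, ← Matrix.SpecialLinearGroup.coe_mul, mul_inv_cancel,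
      Matrix.SpecialLinearGroup.coe_one, vecMul_one] at h
    exact h.symm

theorem LSA_aux (q : ℕ) (hq : q ≠ 0) : ∀ (m : ℕ) (S : Finset ι), S.card = m →
    ∀ A : Matrix ι ι (ZMod q), A.det = 1 →
    (∀ j, j ∉ S → A *ᵥ Pi.single j 1 = Pi.single j 1) →
    (∀ j, j ∉ S → Pi.single j 1 ᵥ* A = Pi.single j 1) →
    ∃ γ : SpecialLinearGroup ι ℤ, LSA_M q (γ : Matrix ι ι ℤ) = A := by
  have : NeZero q := ⟨hq⟩
  intro m
  induction m with
  | zero =>
    intro S hS A _ hc _
    rw [Finset.card_eq_zero] at hS
    subst hS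
    refine ⟨1, ?_⟩
    rw [Matrix.SpecialLinearGroup.coe_one, LSA_M_one]
    ext i j
    have := congrFun (hc j (by simp)) i
    rw [mulVec_single_one] at this
    simpa [Matrix.one_apply, Pi.single_apply] using this.symm
  | succ m ih =>
    intro S hS A hdet hc hr
    have hce : ∀ j, j ∉ S → ∀ i, A i j = if i = j then 1 else 0 := by
      intro j hj i
      have := congrFun (hc j hj) i
      rw [mulVec_single_one] at this
      simpa [Pi.single_apply] using this
    have hre : ∀ j, j ∉ S → ∀ l, A j l = if l = j then 1 else 0 := by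
      intro j hj l
      have := congrFun (hr j hj) l
      rw [single_one_vecMul] at this
      simpa [Pi.single_apply] using this
    by_cases hcard : 2 ≤ S.card
    · obtain ⟨k, hk⟩ : S.Nonempty := by
        rw [← Finset.card_pos]; omega
      set v0 : ι → ℤ := fun i => ((A i k).val : ℤ) with hv0
      have hv0c : ∀ i, ((v0 i : ℤ) : ZMod q) = A i k := by
        intro i
        simp [hv0]
      have hgcd : ∀ d : ℤ, (∀ i ∈ S, d ∣ v0 i) → d ∣ (q : ℤ) → IsUnit d := by
        intro d hd hdq
        set b : ι → ℤ := fun i => ((A.adjugate k i).val : ℤ) with hb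
        have hbc : ∀ i, ((b i : ℤ) : ZMod q) = A.adjugate k i := by
          intro i
          simp [hb]
        have h1 : ∑ i ∈ S, A.adjugate k i * A i k = 1 := by
          have h2 : (A.adjugate * A) k k = 1 := by
            rw [adjugate_mul, hdet, one_smul, Matrix.one_apply_eq]
          rw [Matrix.mul_apply] at h2
          rw [← h2]
          apply Finset.sum_subset (Finset.subset_univ S)
          intro i _ hi
          have hik : k ≠ i := fun h => hi (h ▸ hk)
          rw [hre i hi k, if_neg hik, mul_zero]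
        have h2 : ((∑ i ∈ S, b i * v0 i - 1 : ℤ) : ZMod q) = 0 := by
          push_cast
          rw [sub_eq_zero, ← h1]
          refine Finset.sum_congr rfl fun i _ => ?_
          rw [hbc, hv0c]
        rw [ZMod.intCast_zmod_eq_zero_iff_dvd] at h2
        have h3 : d ∣ ∑ i ∈ S, b i * v0 i := Finset.dvd_sum fun i hi => Dvd.dvd.mul_left (hd i hi) _
        have h4 := dvd_sub h3 (hdq.trans h2)
        rw [sub_sub_cancel] at h4
        exact isUnit_of_dvd_one h4
      obtain ⟨s, w, hsw⟩ := shift_unimod S hcard v0 (q : ℤ) hgcd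
      set v1 : ι → ℤ := fun i => v0 i + s i * (q : ℤ) with hv1
      have hv1c : (fun i => ((v1 i : ℤ) : ZMod q)) = A *ᵥ Pi.single k 1 := by
        ext i
        rw [mulVec_single_one]
        show ((v0 i + s i * (q : ℤ) : ℤ) : ZMod q) = A i k
        rw [← hv0c i]
        push_cast
        simp
      obtain ⟨a, ha, hav⟩ := euclid S k hk hcard _ v1 rfl (by
        intro d hd
        have h3 : d ∣ ∑ i ∈ S, w i * (v0 i + s i * (q : ℤ)) :=
          Finset.dvd_sum fun i hi => Dvd.dvd.mul_left (hd i hi) _
        rw [hsw] at h3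
        exact isUnit_of_dvd_one h3)
      -- the new matrix
      set A' : Matrix ι ι (ZMod q) := LSA_M q (a : Matrix ι ι ℤ) * A with hA'
      have hMa_row : ∀ j, j ∉ S → (Pi.single j 1 : ι → ZMod q) ᵥ* LSA_M q (a : Matrix ι ι ℤ) =
          Pi.single j 1 := by
        intro j hj
        rw [← LSA_single q j, LSA_M_vecMul, LSA_ES_row ha hj]
      have hMa_col : ∀ j, j ∉ S → LSA_M q (a : Matrix ι ι ℤ) *ᵥ (Pi.single j 1 : ι → ZMod q) =
          Pi.single j 1 := by
        intro j hj
        rw [← LSA_single q j, LSA_M_mulVec, ES_fix ha hj]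
      have hA'c : ∀ j, j ∉ S → A' *ᵥ Pi.single j 1 = Pi.single j 1 := by
        intro j hj
        rw [hA', ← mulVec_mulVec, hc j hj, hMa_col j hj]
      have hA'r : ∀ j, j ∉ S → Pi.single j 1 ᵥ* A' = Pi.single j 1 := by
        intro j hj
        rw [hA', ← vecMul_vecMul, hMa_row j hj, hr j hj]
      have hA'k : A' *ᵥ Pi.single k 1 = Pi.single k 1 := by
        ext i
        by_cases hi : i ∈ S
        · rw [hA', ← mulVec_mulVec, ← hv1c, LSA_M_mulVec, Pi.single_apply]
          show ((((a : Matrix ι ι ℤ) *ᵥ v1) i : ℤ) : ZMod q) = _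
          rw [hav i hi]
          by_cases hik : i = k
          · simp [hik]
          · simp [hik]
        · have h1 := congrFun (hA'r i hi) k
          rw [single_one_vecMul] at h1
          have hki : k ≠ i := fun h => hi (h ▸ hk)
          rw [mulVec_single_one]
          have h2 : A' i k = 0 := by simpa [Pi.single_apply, hki] using h1
          show A' i k = _
          rw [h2, Pi.single_apply, if_neg (Ne.symm hki)]
      have hA'det : A'.det = 1 := by
        rw [hA', Matrix.det_mul, hdet, mul_one, LSA_M_det, a.2, map_one]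
      -- clear the row
      set φ : ι → ℤ := fun l => if l = k then 0 else -((A' k l).val : ℤ) with hφ
      have hφe : φ ⬝ᵥ (Pi.single k 1 : ι → ℤ) = 0 := by simp [hφ]
      have hφc : ∀ l, ((φ l : ℤ) : ZMod q) = if l = k then 0 else -A' k l := by
        intro l
        by_cases h : l = k
        · simp [hφ, h]
        · simp [hφ, h]
      set T := tv (Pi.single k 1 : ι → ℤ) φ with hT
      set B : Matrix ι ι (ZMod q) := A' * LSA_M q (T : Matrix ι ι ℤ) with hB
      have hTc : ∀ j, LSA_M q (T : Matrix ι ι ℤ) *ᵥ (Pi.single j 1 : ι → ZMod q) =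
          Pi.single j 1 + ((φ j : ℤ) : ZMod q) • Pi.single k 1 := by
        intro j
        rw [← LSA_single q j, LSA_M_mulVec, hT, tv_mulVec hφe]
        ext i
        simp [Pi.single_apply]
      have hTr : ∀ j, (Pi.single j 1 : ι → ZMod q) ᵥ* LSA_M q (T : Matrix ι ι ℤ) =
          Pi.single j 1 + (if j = k then 1 else 0 : ZMod q) • fun l => ((φ l : ℤ) : ZMod q) := by
        intro j
        rw [← LSA_single q j, LSA_M_vecMul, hT, tv_vecMul hφe]
        ext i
        by_cases hjk : j = k
        · subst hjk
          simp [Pi.single_apply]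
        · simp [Pi.single_apply, hjk, Ne.symm hjk]
      obtain ⟨γ', hγ'⟩ := ih (S.erase k) (by rw [Finset.card_erase_of_mem hk, hS]; rfl) B
        (by rw [hB, Matrix.det_mul, hA'det, one_mul, LSA_M_det, T.2, map_one])
        (by
          intro j hj
          rw [hB, ← mulVec_mulVec, hTc, mulVec_add, mulVec_smul, hA'k]
          by_cases hjk : j = k
          · subst hjk
            rw [hA'k, hφc, if_pos rfl, zero_smul, add_zero]
          · have hjS : j ∉ S := fun h => hj (Finset.mem_erase.mpr ⟨hjk, h⟩)
            have h1 := congrFun (hA'c j hjS) k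
            rw [mulVec_single_one] at h1
            have h2 : A' k j = 0 := by simpa [Pi.single_apply, Ne.symm hjk] using h1
            rw [hA'c j hjS, hφc, if_neg hjk, h2, neg_zero, zero_smul, add_zero])
        (by
          intro j hj
          rw [hB, ← vecMul_vecMul]
          by_cases hjk : j = k
          · subst hjk
            have h0 : (Pi.single j 1 : ι → ZMod q) ᵥ* A' = fun l => A' j l := by
              ext l
              rw [single_one_vecMul]
              rfl
            have hT1 : ∀ x : ι → ZMod q, x ᵥ* LSA_M q (T : Matrix ι ι ℤ) =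
                x + (x j) • fun l => ((φ l : ℤ) : ZMod q) := by
              intro x
              have h1 : LSA_M q (T : Matrix ι ι ℤ) = 1 +
                  vecMulVec (Pi.single j 1) (fun l => ((φ l : ℤ) : ZMod q)) := by
                ext i l
                rw [hT]
                unfold LSA_M
                rw [tv_coe hφe, Matrix.map_apply, Matrix.add_apply, Matrix.add_apply, map_add,
                  vecMulVec_apply, vecMulVec_apply, map_mul, Matrix.one_apply, Matrix.one_apply]
                by_cases h3 : i = l <;> by_cases h4 : i = j <;> simp [h3, h4, Pi.single_apply]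
              rw [h1, vecMul_add, vecMul_one, vecMul_vecMulVec]
              simp
            rw [h0, hT1]
            ext l
            have h2 : A' j j = 1 := by
              have h1 := congrFun hA'k j
              rw [mulVec_single_one] at h1
              simpa [Pi.single_apply] using h1
            show A' j l + A' j j * ((φ l : ℤ) : ZMod q) = _
            rw [h2, one_mul, hφc, Pi.single_apply]
            by_cases hl : l = j
            · subst hl
              rw [if_pos rfl, if_pos rfl, h2, add_zero]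
            · rw [if_neg hl, if_neg hl, add_neg_cancel]
          · have hjS : j ∉ S := fun h => hj (Finset.mem_erase.mpr ⟨hjk, h⟩)
            rw [hA'r j hjS, hTr, if_neg hjk, zero_smul, add_zero])
      refine ⟨a⁻¹ * γ' * T⁻¹, ?_⟩
      rw [Matrix.SpecialLinearGroup.coe_mul, Matrix.SpecialLinearGroup.coe_mul, LSA_M_mul,
        LSA_M_mul, hγ', hB, hA']
      have e1 : LSA_M q ((a⁻¹ : SpecialLinearGroup ι ℤ) : Matrix ι ι ℤ) *
          LSA_M q (a : Matrix ι ι ℤ) = 1 := by
        rw [← LSA_M_mul, ← Matrix.SpecialLinearGroup.coe_mul, inv_mul_cancel,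
          Matrix.SpecialLinearGroup.coe_one, LSA_M_one]
      have e2 : LSA_M q (T : Matrix ι ι ℤ) *
          LSA_M q ((T⁻¹ : SpecialLinearGroup ι ℤ) : Matrix ι ι ℤ) = 1 := by
        rw [← LSA_M_mul, ← Matrix.SpecialLinearGroup.coe_mul, mul_inv_cancel,
          Matrix.SpecialLinearGroup.coe_one, LSA_M_one]
      calc LSA_M q ((a⁻¹ : SpecialLinearGroup ι ℤ) : Matrix ι ι ℤ) *
            (LSA_M q (a : Matrix ι ι ℤ) * A * LSA_M q (T : Matrix ι ι ℤ)) *
            LSA_M q ((T⁻¹ : SpecialLinearGroup ι ℤ) : Matrix ι ι ℤ)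
          = (LSA_M q ((a⁻¹ : SpecialLinearGroup ι ℤ) : Matrix ι ι ℤ) *
            LSA_M q (a : Matrix ι ι ℤ)) * A * (LSA_M q (T : Matrix ι ι ℤ) *
            LSA_M q ((T⁻¹ : SpecialLinearGroup ι ℤ) : Matrix ι ι ℤ)) := by
              simp only [Matrix.mul_assoc]
        _ = A := by rw [e1, e2, Matrix.one_mul, Matrix.mul_one]
    · have hS1 : S.card = 1 := by omega
      obtain ⟨k, hk⟩ := Finset.card_eq_one.mp hS1
      subst hk
      have hdiag : A = Matrix.diagonal (fun i => if i = k then A k k else 1) := by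
        ext i j
        by_cases hj : j = k
        · subst hj
          by_cases hi : i = j
          · subst hi
            rw [Matrix.diagonal_apply_eq, if_pos rfl]
          · rw [Matrix.diagonal_apply_ne _ hi, hre i (by simpa using hi) j, if_neg (Ne.symm hi)]
        · rw [hce j (by simpa using hj) i]
          by_cases hi : i = j
          · subst hi
            rw [Matrix.diagonal_apply_eq, if_pos rfl, if_neg hj]
          · rw [Matrix.diagonal_apply_ne _ hi, if_neg hi]
      have h1 : A k k = 1 := by
        have h2 := hdet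
        rw [hdiag, Matrix.det_diagonal] at h2
        simpa using h2
      refine ⟨1, ?_⟩
      rw [Matrix.SpecialLinearGroup.coe_one, LSA_M_one, hdiag, h1]
      simp

end

theorem LSA : LSA_stmt := by
  intro n m hm A hA
  have hdet : (LSA_M m A).det = 1 := by
    rw [LSA_M_det]
    have h1 : ((A.det - 1 : ℤ) : ZMod m) = 0 := by
      rw [ZMod.intCast_zmod_eq_zero_iff_dvd]
      exact hA
    rw [Int.cast_sub, Int.cast_one, sub_eq_zero] at h1
    exact h1
  obtain ⟨γ, hγ⟩ := LSA_aux m hm _ Finset.univ rfl (LSA_M m A) hdet (fun j hj => by simp at hj)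
    (fun j hj => by simp at hj)
  refine ⟨γ, ?_⟩
  intro i j
  have h2 := congrFun (congrFun hγ i) j
  have h3 : (((γ : Matrix (Fin n) (Fin n) ℤ) i j - A i j : ℤ) : ZMod m) = 0 := by
    push_cast
    rw [sub_eq_zero]
    exact h2
  rw [ZMod.intCast_zmod_eq_zero_iff_dvd] at h3
  exact h3

end Pool.Agent.PR
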